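import Pool.Agent.W792.GK.Stm

/-!
Part GK-P2 (project GK of helper792, MP_28b024_mp): the main inequality.
-/

set_option linter.unusedSectionVars false

namespace Pool.Agent.W134.GKP2

open MeasureTheory Matrix Pool.Agent.W792.GK
open scoped ComplexOrder

noncomputable section

variable {Q : Type} [Fintype Q] [DecidableEq Q]

open scoped MatrixOrder Matrix.Norms.L2Operator in
lemma tr_mul_nonneg {A B : Matrix Q Q ℂ} (hA : A.PosSemidef) (hB : B.PosSemidef) :
    0 ≤ ((A * B).trace).re := by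
  obtain ⟨C, hC⟩ := CStarAlgebra.nonneg_iff_eq_star_mul_self.mp hB.nonneg
  rw [star_eq_conjTranspose] at hC
  have h1 : (A * B).trace = (C * A * Cᴴ).trace := by
    rw [hC, ← Matrix.mul_assoc, Matrix.trace_mul_comm, Matrix.mul_assoc]
  rw [h1]
  exact (Complex.le_def.1 (hA.mul_mul_conjTranspose_same C).trace_nonneg).1

lemma entry_le {A : Matrix Q Q ℂ} {c : ℝ} (h : OpB A c) (x y : Q) : ‖A x y‖ ≤ |c| := by
  have h1 := h (Pi.single y 1)
  simp only [Matrix.mulVec_single_one] at h1
  have h3 : ∑ i, ‖(Pi.single y (1:ℂ) : Q → ℂ) i‖ ^ 2 = 1 := by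
    rw [Finset.sum_eq_single y] <;> simp +contextual
  have h2 : ‖A x y‖ ^ 2 ≤ ∑ i, ‖A i y‖ ^ 2 :=
    Finset.single_le_sum (f := fun i => ‖A i y‖ ^ 2) (fun i _ => by positivity)
      (Finset.mem_univ x)
  have h4 : ∑ i, ‖A.col y i‖ ^ 2 = ∑ i, ‖A i y‖ ^ 2 := rfl
  rw [h3, mul_one, h4] at h1
  exact abs_le_of_sq_le_sq' (by simpa using h2.trans h1) (abs_nonneg c) |>.2

lemma imM_sub (A B : Matrix Q Q ℂ) : imM (A - B) = imM A - imM B := by
  simp only [imM, conjTranspose_sub, ← smul_sub]
  congr 1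
  abel

lemma imM_add (A B : Matrix Q Q ℂ) : imM (A + B) = imM A + imM B := by
  simp only [imM, conjTranspose_add, ← smul_add]
  congr 1
  abel

lemma imM_ct (A : Matrix Q Q ℂ) : imM Aᴴ = - imM A := by
  simp only [imM, conjTranspose_conjTranspose, ← smul_neg]
  congr 1
  abel

lemma imM_herm {A : Matrix Q Q ℂ} (h : A.IsHermitian) : imM A = 0 := by
  simp [imM, h.eq]

lemma imM_real_smul (r : ℝ) (A : Matrix Q Q ℂ) : imM ((r : ℂ) • A) = (r : ℂ) • imM A := by
  simp only [imM, conjTranspose_smul, Complex.star_def, Complex.conj_ofReal, ← smul_sub]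
  rw [smul_comm]

lemma imM_scalar (z : ℂ) : imM (z • (1 : Matrix Q Q ℂ)) = (z.im : ℂ) • 1 := by
  simp only [imM, conjTranspose_smul, conjTranspose_one, ← sub_smul, smul_smul]
  congr 1
  rw [Complex.star_def, Complex.sub_conj]
  have : Complex.I ≠ 0 := Complex.I_ne_zero
  field_simp
  push_cast
  ring

lemma imM_conj (B M : Matrix Q Q ℂ) : imM (Bᴴ * M * B) = Bᴴ * imM M * B := by
  simp only [imM, conjTranspose_mul, conjTranspose_conjTranspose, Matrix.mul_smul,
    Matrix.smul_mul, Matrix.mul_sub, Matrix.sub_mul, Matrix.mul_assoc]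

lemma imM_conj' (B M : Matrix Q Q ℂ) : imM (B * M * Bᴴ) = B * imM M * Bᴴ := by
  simp only [imM, conjTranspose_mul, conjTranspose_conjTranspose, Matrix.mul_smul,
    Matrix.smul_mul, Matrix.mul_sub, Matrix.sub_mul, Matrix.mul_assoc]

lemma tr_imM (M : Matrix Q Q ℂ) : (imM M).trace = (M.trace.im : ℂ) := by
  simp only [imM, trace_smul, trace_sub, trace_conjTranspose, smul_eq_mul]
  rw [Complex.star_def, Complex.sub_conj]
  have : Complex.I ≠ 0 := Complex.I_ne_zero
  field_simp
  push_cast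
  ring

lemma tr_bd {A B : Matrix Q Q ℂ} {c : ℝ} (h : ∀ x y, ‖A x y‖ ≤ c) :
    ‖(A * B).trace‖ ≤ c * e1 B := by
  have h1 : (A * B).trace = ∑ x, ∑ y, A x y * B y x := by
    simp only [trace, diag, Matrix.mul_apply]
  have h2 : e1 B = ∑ x, ∑ y, ‖B y x‖ := by
    rw [e1, Finset.sum_comm]
  rw [h1, h2, Finset.mul_sum]
  refine (norm_sum_le _ _).trans (Finset.sum_le_sum fun x _ => ?_)
  rw [Finset.mul_sum]
  refine (norm_sum_le _ _).trans (Finset.sum_le_sum fun y _ => ?_)
  rw [norm_mul]
  exact mul_le_mul_of_nonneg_right (h _ _) (norm_nonneg _)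

/-- The left estimate. -/
lemma left_est {s : ℝ} {z : ℂ} (hz : 0 < z.im) {D G g : Matrix Q Q ℂ} (hD : D.IsHermitian)
    (hG : OpB G (1 / z.im)) :
    s ^ 2 * ((Gᴴ * imM g * G).trace).re ≤ (imM G).trace.re +
      (1 / z.im) * e1 (1 - (D - z • (1 : Matrix Q Q ℂ) - ((s ^ 2 : ℝ) : ℂ) • g) * G) := by
  set X := D - z • (1 : Matrix Q Q ℂ) - ((s ^ 2 : ℝ) : ℂ) • g with hX
  have hiX : imM X = - ((z.im : ℂ) • (1 : Matrix Q Q ℂ) + ((s ^ 2 : ℝ) : ℂ) • imM g) := by
    rw [hX, imM_sub, imM_sub, imM_herm hD, imM_scalar, imM_real_smul]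
    abel
  have h1 : Gᴴ * ((z.im : ℂ) • (1 : Matrix Q Q ℂ) + ((s ^ 2 : ℝ) : ℂ) • imM g) * G
      = imM G + imM (Gᴴ * (1 - X * G)) := by
    have : Gᴴ * (1 - X * G) = Gᴴ - Gᴴ * X * G := by
      rw [Matrix.mul_sub, Matrix.mul_one, Matrix.mul_assoc]
    rw [this, imM_sub, imM_ct, imM_conj, hiX]
    simp only [Matrix.mul_neg, Matrix.neg_mul]
    abel
  have h2 := congrArg (fun M => (Matrix.trace M).re) h1
  simp only [trace_add, Complex.add_re, Matrix.mul_add, Matrix.add_mul, Matrix.mul_smul,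
    Matrix.smul_mul, Matrix.mul_one, trace_smul, smul_eq_mul, Complex.re_ofReal_mul] at h2
  have h3 : 0 ≤ (Gᴴ * G).trace.re :=
    (Complex.le_def.1 (posSemidef_conjTranspose_mul_self G).trace_nonneg).1
  have h4 : (imM (Gᴴ * (1 - X * G))).trace.re ≤ (1 / z.im) * e1 (1 - X * G) := by
    rw [tr_imM, Complex.ofReal_re]
    refine (le_abs_self _).trans ((Complex.abs_im_le_norm _).trans (tr_bd fun x y => ?_))
    rw [conjTranspose_apply, norm_star]
    have := entry_le hG y x
    rwa [abs_of_pos (by positivity)] at this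
  nlinarith [mul_nonneg hz.le h3]

/-- The right estimate. -/
lemma right_est {s : ℝ} {z : ℂ} (hz : 0 < z.im) {D G g : Matrix Q Q ℂ} (hD : D.IsHermitian)
    (hG : OpB G (1 / z.im)) :
    s ^ 2 * ((G * imM g * Gᴴ).trace).re ≤ (imM G).trace.re +
      (1 / z.im) * e1 (1 - G * (D - z • (1 : Matrix Q Q ℂ) - ((s ^ 2 : ℝ) : ℂ) • g)) := by
  set X := D - z • (1 : Matrix Q Q ℂ) - ((s ^ 2 : ℝ) : ℂ) • g with hX
  have hiX : imM X = - ((z.im : ℂ) • (1 : Matrix Q Q ℂ) + ((s ^ 2 : ℝ) : ℂ) • imM g) := by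
    rw [hX, imM_sub, imM_sub, imM_herm hD, imM_scalar, imM_real_smul]
    abel
  have h1 : G * ((z.im : ℂ) • (1 : Matrix Q Q ℂ) + ((s ^ 2 : ℝ) : ℂ) • imM g) * Gᴴ
      = imM G + imM ((1 - G * X) * Gᴴ) := by
    have : (1 - G * X) * Gᴴ = Gᴴ - G * X * Gᴴ := by
      rw [Matrix.sub_mul, Matrix.one_mul]
    rw [this, imM_sub, imM_ct, imM_conj', hiX]
    simp only [Matrix.mul_neg, Matrix.neg_mul]
    abel
  have h2 := congrArg (fun M => (Matrix.trace M).re) h1
  simp only [trace_add, Complex.add_re, Matrix.mul_add, Matrix.add_mul, Matrix.mul_smul,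
    Matrix.smul_mul, Matrix.mul_one, trace_smul, smul_eq_mul, Complex.re_ofReal_mul] at h2
  have h3 : 0 ≤ (G * Gᴴ).trace.re :=
    (Complex.le_def.1 (posSemidef_self_mul_conjTranspose G).trace_nonneg).1
  have h4 : (imM ((1 - G * X) * Gᴴ)).trace.re ≤ (1 / z.im) * e1 (1 - G * X) := by
    rw [tr_imM, Complex.ofReal_re, trace_mul_comm]
    refine (le_abs_self _).trans ((Complex.abs_im_le_norm _).trans (tr_bd fun x y => ?_))
    rw [conjTranspose_apply, norm_star]
    have := entry_le hG y x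
    rwa [abs_of_pos (by positivity)] at this
  nlinarith [mul_nonneg hz.le h3]

/-- `Tr (J N J)` in terms of `G`. -/
lemma jnj {G N : Matrix Q Q ℂ} (hN : N.PosSemidef) (hJ : (imM G).IsHermitian) :
    (imM G * N * imM G).trace.re ≤
      (1 / 2) * ((Gᴴ * N * G).trace.re + (G * N * Gᴴ).trace.re) := by
  have h1 := (Complex.le_def.1 (hN.conjTranspose_mul_mul_same (G + Gᴴ)).trace_nonneg).1
  have h2 : (imM G * N * imM G) = (1 / 4 : ℂ) • ((G - Gᴴ)ᴴ * N * (G - Gᴴ)) := by
    have : imM G * N * imM G = (imM G)ᴴ * N * imM G := by rw [hJ.eq]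
    rw [this]
    simp only [imM, conjTranspose_smul, Matrix.smul_mul, Matrix.mul_smul, smul_smul]
    congr 1
    simp only [Complex.star_def, map_div₀, map_one, map_mul, Complex.conj_I]
    have : Complex.I ^ 2 = -1 := Complex.I_sq
    have h0 : Complex.I ≠ 0 := Complex.I_ne_zero
    have h2 : (starRingEnd ℂ) 2 = 2 := Complex.conj_ofNat 2
    rw [h2]
    field_simp
    rw [this]
    norm_num
  have h3 : (G - Gᴴ)ᴴ * N * (G - Gᴴ) + (G + Gᴴ)ᴴ * N * (G + Gᴴ)
      = (2 : ℂ) • (Gᴴ * N * G + G * N * Gᴴ) := by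
    simp only [conjTranspose_sub, conjTranspose_add, conjTranspose_conjTranspose, Matrix.mul_add,
      Matrix.add_mul, Matrix.mul_sub, Matrix.sub_mul, two_smul]
    abel
  have h4 := congrArg (fun M => (Matrix.trace M).re) h3
  have h5 := congrArg (fun M => (Matrix.trace M).re) h2
  simp only [trace_add, Complex.add_re, trace_smul, smul_eq_mul] at h4 h5
  have e2 : ∀ c : ℂ, (2 * c).re = 2 * c.re := fun c => by simp
  have e4 : ∀ c : ℂ, ((1 / 4 : ℂ) * c).re = (1 / 4) * c.re := fun c => by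
    rw [show (1 / 4 : ℂ) = ((1 / 4 : ℝ) : ℂ) by push_cast; ring, Complex.re_ofReal_mul]
  rw [e2] at h4
  rw [e4] at h5
  simp only [Complex.add_re] at h4
  simp only [Complex.zero_re] at h1
  linarith

/-- The splitting with parameter `a`. -/
lemma split_est {η a : ℝ} (ha : 0 < a) {J N : Matrix Q Q ℂ} (hJ : J.PosSemidef)
    (hJ2 : ((η : ℂ)⁻¹ • J - J * J).PosSemidef) (hN : N.PosSemidef) :
    (J * J).trace.re ≤ (a / η) * ((N + (a : ℂ) • 1)⁻¹ * J).trace.re +
      (1 / a) * (J * N * J).trace.re := by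
  set P : Matrix Q Q ℂ := N + (a : ℂ) • 1 with hP
  have haC : (0 : ℂ) < (a : ℂ) := by exact_mod_cast ha
  have hPd : P.PosDef := by
    rw [hP]
    exact Matrix.PosDef.posSemidef_add hN (Matrix.PosDef.one.smul haC)
  have hdet : IsUnit P.det := isUnit_iff_ne_zero.2 hPd.det_pos.ne'
  set W := P⁻¹ with hW
  have hWp : W.PosSemidef := hPd.posSemidef.inv
  have h1 : P * W = 1 := Matrix.mul_nonsing_inv _ hdet
  have h1' : W * P = 1 := Matrix.nonsing_inv_mul _ hdet
  have h2 : (a : ℂ) • W + N * W = 1 := by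
    rw [← h1, hP, Matrix.add_mul, Matrix.smul_mul, Matrix.one_mul, add_comm]
  have h2' : (a : ℂ) • W + W * N = 1 := by
    rw [← h1', hP, Matrix.mul_add, Matrix.mul_smul, Matrix.mul_one, add_comm]
  -- `J * J = a J W J + J N W J`
  have h3 : J * J = (a : ℂ) • (J * W * J) + J * (N * W) * J := by
    have : J * J = J * ((a : ℂ) • W + N * W) * J := by rw [h2, Matrix.mul_one]
    rw [this, Matrix.mul_add, Matrix.add_mul, Matrix.mul_smul, Matrix.smul_mul]
  -- `N = a N W + N W N`
  have h4 : J * N * J = (a : ℂ) • (J * (N * W) * J) + J * (N * W * N) * J := by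
    have : N = (a : ℂ) • (N * W) + N * W * N := by
      conv_lhs => rw [← Matrix.mul_one N, ← h2', Matrix.mul_add, Matrix.mul_smul,
        ← Matrix.mul_assoc]
    conv_lhs => rw [this]
    rw [Matrix.mul_add, Matrix.add_mul, Matrix.mul_smul, Matrix.smul_mul]
  have h5 : 0 ≤ (J * (N * W * N) * J).trace.re := by
    have h6 : (N * W * N).PosSemidef := by
      have := hWp.conjTranspose_mul_mul_same N
      rwa [hN.1.eq] at this
    have h7 := h6.conjTranspose_mul_mul_same J
    rw [hJ.1.eq] at h7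
    exact (Complex.le_def.1 h7.trace_nonneg).1
  have h8 : (J * W * J).trace.re ≤ (1 / η) * (W * J).trace.re := by
    have h9 := tr_mul_nonneg hWp hJ2
    rw [Matrix.mul_sub, trace_sub, Matrix.mul_smul, trace_smul, smul_eq_mul,
      ← Complex.ofReal_inv, Complex.sub_re, Complex.re_ofReal_mul] at h9
    have h10 : (J * W * J).trace = (W * (J * J)).trace := by
      rw [Matrix.mul_assoc, Matrix.trace_mul_comm, Matrix.mul_assoc]
    rw [h10, one_div]
    linarith
  have e3 := congrArg (fun M => (Matrix.trace M).re) h3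
  have e4 := congrArg (fun M => (Matrix.trace M).re) h4
  simp only [trace_add, Complex.add_re, trace_smul, smul_eq_mul, Complex.re_ofReal_mul] at e3 e4
  have h11 : (J * (N * W) * J).trace.re ≤ (1 / a) * (J * N * J).trace.re := by
    have e6 : 1 / a * (J * N * J).trace.re = (J * (N * W) * J).trace.re
        + a⁻¹ * (J * (N * W * N) * J).trace.re := by
      rw [e4]
      field_simp
    rw [e6]
    have : 0 ≤ a⁻¹ * (J * (N * W * N) * J).trace.re := by positivity
    linarith
  have h12 : a * (J * W * J).trace.re ≤ (a / η) * (W * J).trace.re := by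
    have := mul_le_mul_of_nonneg_left h8 ha.le
    calc _ ≤ _ := this
      _ = _ := by ring
  linarith

/-- The pointwise inequality. -/
lemma point {s a : ℝ} (hs : 0 < s) (ha : 0 < a) {z : ℂ} (hz : 0 < z.im)
    {D G g : Matrix Q Q ℂ} (hD : D.IsHermitian) (hJ : (imM G).PosSemidef)
    (hJ2 : ((z.im : ℂ)⁻¹ • imM G - imM G * imM G).PosSemidef) (hG : OpB G (1 / z.im))
    (hN : (imM g).PosSemidef) :
    ∑ x, ∑ y, ‖imM G x y‖ ^ 2 ≤ (a / z.im) * ((imM g + (a : ℂ) • 1)⁻¹ * imM G).trace.re +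
      (1 / (a * s ^ 2)) * (∑ x, (G x x).im + (1 / (2 * z.im)) *
        (e1 (1 - (D - z • (1 : Matrix Q Q ℂ) - ((s ^ 2 : ℝ) : ℂ) • g) * G) +
         e1 (1 - G * (D - z • (1 : Matrix Q Q ℂ) - ((s ^ 2 : ℝ) : ℂ) • g)))) := by
  have h1 : ∑ x, ∑ y, ‖imM G x y‖ ^ 2 = (imM G * imM G).trace.re := by
    have : (imM G * imM G).trace = (imM G * (imM G)ᴴ).trace := by rw [hJ.1.eq]
    rw [this]
    simp only [trace, diag, Matrix.mul_apply, conjTranspose_apply, Complex.re_sum,
      Complex.star_def, Complex.mul_conj, Complex.ofReal_re, Complex.normSq_eq_norm_sq]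
  have h2 := split_est ha hJ hJ2 hN
  have h3 := jnj hN hJ.1
  have h4 := left_est (s := s) (g := g) hz hD hG
  have h5 := right_est (s := s) (g := g) hz hD hG
  have h6 : (imM G).trace.re = ∑ x, (G x x).im := by
    rw [tr_imM, Complex.ofReal_re, trace, Complex.im_sum]
    rfl
  rw [h1]
  rw [h6] at h4 h5
  refine h2.trans (add_le_add le_rfl ?_)
  set E1 := e1 (1 - (D - z • (1 : Matrix Q Q ℂ) - ((s ^ 2 : ℝ) : ℂ) • g) * G)
  set E2 := e1 (1 - G * (D - z • (1 : Matrix Q Q ℂ) - ((s ^ 2 : ℝ) : ℂ) • g))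
  have h7 : s ^ 2 * (imM G * imM g * imM G).trace.re ≤ ∑ x, (G x x).im + (1 / (2 * z.im)) *
      (E1 + E2) := by
    have e : (1 / (2 * z.im)) * (E1 + E2) = (1 / 2) * (1 / z.im * E1 + 1 / z.im * E2) := by
      field_simp
    rw [e]
    have := mul_le_mul_of_nonneg_left h3 (by positivity : 0 ≤ s ^ 2)
    nlinarith
  have hs2 : 0 < s ^ 2 := by positivity
  calc 1 / a * (imM G * imM g * imM G).trace.re
      = (1 / (a * s ^ 2)) * (s ^ 2 * (imM G * imM g * imM G).trace.re) := by
        field_simp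
    _ ≤ _ := mul_le_mul_of_nonneg_left h7 (by positivity)

lemma imM_apply (A : Matrix Q Q ℂ) (x y : Q) :
    imM A x y = (1 / (2 * Complex.I)) * (A x y - star (A y x)) := by
  simp [imM]

theorem main : S_P2 := by
  intro Q _ _ _ Ω _ μ _ D G s z hs hz hDm hGm hC hD hJ hJ2 hG g hg a ha
  obtain ⟨C, hC⟩ := hC
  have hGb : ∀ w x y, ‖G w x y‖ ≤ 1 / z.im := fun w x y => by
    have := entry_le (hG w) x y
    rwa [abs_of_pos (by positivity)] at this
  have hDb : ∀ w x y, ‖D w x y‖ ≤ |C| := fun w x y => entry_le (hC w) x y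
  have hGi : ∀ x y, Integrable (fun w => G w x y) μ := fun x y =>
    Integrable.of_bound (hGm x y).aestronglyMeasurable (1 / z.im)
      (Filter.Eventually.of_forall fun w => hGb w x y)
  have hDi : ∀ x y, Integrable (fun w => D w x y) μ := fun x y =>
    Integrable.of_bound (hDm x y).aestronglyMeasurable |C|
      (Filter.Eventually.of_forall fun w => hDb w x y)
  have hJi : ∀ x y, Integrable (fun w => imM (G w) x y) μ := fun x y => by
    simp only [imM_apply]
    refine Integrable.const_mul ((hGi x y).sub ?_) _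
    exact (hGi y x).norm.mono'
      ((Complex.continuous_conj.measurable.comp (hGm y x)).aestronglyMeasurable)
      (Filter.Eventually.of_forall fun w => by simp)
  have hJint : ∀ x y, ∫ w, imM (G w) x y ∂μ = imM g x y := fun x y => by
    simp only [imM_apply]
    have h1 : Integrable (fun w => star (G w y x)) μ :=
      (hGi y x).norm.mono'
        ((Complex.continuous_conj.measurable.comp (hGm y x)).aestronglyMeasurable)
        (Filter.Eventually.of_forall fun w => by simp)
    rw [integral_const_mul, integral_sub (hGi x y) h1, hg]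
    congr 2
    have := integral_conj (μ := μ) (f := fun w => G w y x)
    rw [hg] at this
    exact this
  have hN : (imM g).PosSemidef := by
    have hher : (imM g).IsHermitian := by
      ext x y
      rw [conjTranspose_apply, ← hJint, ← hJint]
      have h1 := integral_conj (μ := μ) (f := fun w => imM (G w) y x)
      refine Eq.trans h1.symm ?_
      congr 1
      ext w
      exact (hJ w).1.apply x y
    refine PosSemidef.of_dotProduct_mulVec_nonneg hher fun v => ?_
    have h1 : star v ⬝ᵥ (imM g *ᵥ v) = ∫ w, star v ⬝ᵥ (imM (G w) *ᵥ v) ∂μ := by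
      simp only [dotProduct, mulVec]
      rw [integral_finsetSum]
      · refine Finset.sum_congr rfl fun x _ => ?_
        rw [integral_const_mul, integral_finsetSum]
        · congr 1
          refine Finset.sum_congr rfl fun y _ => ?_
          rw [integral_mul_const, hJint]
        · intro y _
          exact (hJi x y).mul_const _
      · intro x _
        exact (integrable_finsetSum _ fun y _ => (hJi x y).mul_const _).const_mul _
    have h2 : ∀ w, star v ⬝ᵥ (imM (G w) *ᵥ v)
        = (((star v ⬝ᵥ (imM (G w) *ᵥ v)).re : ℝ) : ℂ) := fun w => by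
      have := Complex.le_def.1 ((hJ w).dotProduct_mulVec_nonneg v)
      apply Complex.ext
      · simp
      · simp only [Complex.ofReal_im]
        exact this.2.symm
    rw [h1]
    have h3 : 0 ≤ ∫ w, (star v ⬝ᵥ (imM (G w) *ᵥ v)).re ∂μ :=
      integral_nonneg fun w => (Complex.le_def.1 ((hJ w).dotProduct_mulVec_nonneg v)).1
    have h4 : ∫ w, star v ⬝ᵥ (imM (G w) *ᵥ v) ∂μ
        = ((∫ w, (star v ⬝ᵥ (imM (G w) *ᵥ v)).re ∂μ : ℝ) : ℂ) := by
      rw [← integral_complex_ofReal]
      exact integral_congr_ae (Filter.Eventually.of_forall h2)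
    rw [h4]
    exact_mod_cast h3
  set X : Ω → Matrix Q Q ℂ := fun w => D w - z • (1 : Matrix Q Q ℂ) - ((s ^ 2 : ℝ) : ℂ) • g
    with hX
  have hXm : ∀ x y, Measurable fun w => X w x y := fun x y => by
    simp only [hX, Matrix.sub_apply]
    exact ((hDm x y).sub_const _).sub_const _
  have hXi : ∀ x y, Integrable (fun w => X w x y) μ := fun x y => by
    simp only [hX, Matrix.sub_apply]
    exact ((hDi x y).sub (integrable_const _)).sub (integrable_const _)
  have hXG : ∀ x y, Integrable (fun w => (X w * G w) x y) μ := fun x y => by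
    simp only [Matrix.mul_apply]
    refine integrable_finsetSum _ fun u _ => ?_
    exact (hXi x u).mul_bdd (hGm u y).aestronglyMeasurable
      (Filter.Eventually.of_forall fun w => hGb w u y)
  have hGX : ∀ x y, Integrable (fun w => (G w * X w) x y) μ := fun x y => by
    simp only [Matrix.mul_apply]
    refine integrable_finsetSum _ fun u _ => ?_
    exact (hXi u y).bdd_mul (hGm x u).aestronglyMeasurable
      (Filter.Eventually.of_forall fun w => hGb w x u)
  have hE1 : Integrable (fun w => e1 (1 - X w * G w)) μ := by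
    simp only [e1]
    refine integrable_finsetSum _ fun x _ => integrable_finsetSum _ fun y _ => ?_
    refine Integrable.norm ?_
    simp only [Matrix.sub_apply]
    exact (integrable_const _).sub (hXG x y)
  have hE2 : Integrable (fun w => e1 (1 - G w * X w)) μ := by
    simp only [e1]
    refine integrable_finsetSum _ fun x _ => integrable_finsetSum _ fun y _ => ?_
    refine Integrable.norm ?_
    simp only [Matrix.sub_apply]
    exact (integrable_const _).sub (hGX x y)
  have hTr : Integrable (fun w => ∑ x, (G w x x).im) μ :=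
    integrable_finsetSum _ fun x _ => (hGi x x).im
  set W := (imM g + (a : ℂ) • (1 : Matrix Q Q ℂ))⁻¹ with hW
  have hWJ : ∀ w, (W * imM (G w)).trace = ∑ x, ∑ y, W x y * imM (G w) y x := fun w => by
    simp only [trace, diag, Matrix.mul_apply]
  have hWi : Integrable (fun w => (W * imM (G w)).trace) μ := by
    simp only [hWJ]
    exact integrable_finsetSum _ fun x _ => integrable_finsetSum _ fun y _ =>
      (hJi y x).const_mul _
  have hWint : ∫ w, (W * imM (G w)).trace ∂μ = (W * imM g).trace := by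
    simp only [hWJ]
    have key : ∀ F : Q → Q → Ω → ℂ, (∀ x y, Integrable (F x y) μ) →
        ∫ w, ∑ x, ∑ y, F x y w ∂μ = ∑ x, ∑ y, ∫ w, F x y w ∂μ := fun F hF => by
      rw [integral_finsetSum _ fun x _ => integrable_finsetSum _ fun y _ => hF x y]
      exact Finset.sum_congr rfl fun x _ => integral_finsetSum _ fun y _ => hF x y
    refine (key (fun x y w => W x y * imM (G w) y x) fun x y => (hJi y x).const_mul _).trans ?_
    simp only [trace, diag, Matrix.mul_apply]
    refine Finset.sum_congr rfl fun x _ => Finset.sum_congr rfl fun y _ => ?_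
    rw [integral_const_mul, hJint]
  have haC : (0 : ℂ) < (a : ℂ) := by exact_mod_cast ha
  have hPd : (imM g + (a : ℂ) • (1 : Matrix Q Q ℂ)).PosDef :=
    Matrix.PosDef.posSemidef_add hN (Matrix.PosDef.one.smul haC)
  have hdet : IsUnit (imM g + (a : ℂ) • (1 : Matrix Q Q ℂ)).det :=
    isUnit_iff_ne_zero.2 hPd.det_pos.ne'
  have hWle : (W * imM g).trace.re ≤ Fintype.card Q := by
    have h1 : W * (imM g + (a : ℂ) • (1 : Matrix Q Q ℂ)) = 1 := Matrix.nonsing_inv_mul _ hdet
    have h2 : W * imM g = 1 - (a : ℂ) • W := by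
      rw [← h1, Matrix.mul_add, Matrix.mul_smul, Matrix.mul_one]
      abel
    have h3 : 0 ≤ W.trace.re :=
      (Complex.le_def.1 (hPd.posSemidef.inv.trace_nonneg)).1
    rw [h2, trace_sub, trace_smul, smul_eq_mul, Complex.sub_re, Complex.re_ofReal_mul, trace_one]
    simp only [Complex.natCast_re]
    have : 0 ≤ a * W.trace.re := by positivity
    linarith
  have hcard : (1 : ℝ) ≤ Fintype.card Q := by
    exact_mod_cast Nat.one_le_iff_ne_zero.2 Fintype.card_ne_zero
  -- integrate the pointwise inequality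
  have hmain : ∫ w, ∑ x, ∑ y, ‖imM (G w) x y‖ ^ 2 ∂μ ≤
      (a / z.im) * (W * imM g).trace.re + (1 / (a * s ^ 2)) * ((∫ w, ∑ x, (G w x x).im ∂μ) +
        (1 / (2 * z.im)) * ((∫ w, e1 (1 - X w * G w) ∂μ) + ∫ w, e1 (1 - G w * X w) ∂μ)) := by
    have h1 : ∫ w, ((a / z.im) * (W * imM (G w)).trace.re + (1 / (a * s ^ 2)) *
        (∑ x, (G w x x).im + (1 / (2 * z.im)) * (e1 (1 - X w * G w) + e1 (1 - G w * X w)))) ∂μ
        = (a / z.im) * (W * imM g).trace.re + (1 / (a * s ^ 2)) *
          ((∫ w, ∑ x, (G w x x).im ∂μ) + (1 / (2 * z.im)) *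
          ((∫ w, e1 (1 - X w * G w) ∂μ) + ∫ w, e1 (1 - G w * X w) ∂μ)) := by
      have key : ∀ (f1 f2 f3 f4 : Ω → ℝ) (c1 c2 c3 : ℝ), Integrable f1 μ → Integrable f2 μ →
          Integrable f3 μ → Integrable f4 μ →
          ∫ w, (c1 * f1 w + c2 * (f2 w + c3 * (f3 w + f4 w))) ∂μ
          = c1 * (∫ w, f1 w ∂μ) + c2 * ((∫ w, f2 w ∂μ) +
            c3 * ((∫ w, f3 w ∂μ) + ∫ w, f4 w ∂μ)) := by
        intro f1 f2 f3 f4 c1 c2 c3 i1 i2 i3 i4
        have i34 : Integrable (fun w => c3 * (f3 w + f4 w)) μ := (i3.add i4).const_mul _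
        have i234 : Integrable (fun w => c2 * (f2 w + c3 * (f3 w + f4 w))) μ :=
          (i2.add i34).const_mul _
        rw [integral_add (i1.const_mul _) i234, integral_const_mul, integral_const_mul,
          integral_add i2 i34, integral_const_mul, integral_add i3 i4]
      refine (key _ _ _ _ _ _ _ hWi.re hTr hE1 hE2).trans ?_
      congr 2
      rw [← hWint]
      exact integral_re hWi
    rw [← h1]
    refine integral_mono_of_nonneg (Filter.Eventually.of_forall fun w => by positivity) ?_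
      (Filter.Eventually.of_forall fun w => point hs ha hz (hD w) (hJ w) (hJ2 w) (hG w) hN)
    exact (hWi.re.const_mul _).add ((hTr.add ((hE1.add hE2).const_mul _)).const_mul _)
  have hE1n : 0 ≤ ∫ w, e1 (1 - X w * G w) ∂μ := integral_nonneg fun w => by
    simp only [e1, Pi.zero_apply]; positivity
  have hE2n : 0 ≤ ∫ w, e1 (1 - G w * X w) ∂μ := integral_nonneg fun w => by
    simp only [e1, Pi.zero_apply]; positivity
  set F := ∫ w, ∑ x, ∑ y, ‖imM (G w) x y‖ ^ 2 ∂μ
  set T := ∫ w, ∑ x, (G w x x).im ∂μ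
  set E1 := ∫ w, e1 (1 - X w * G w) ∂μ
  set E2 := ∫ w, e1 (1 - G w * X w) ∂μ
  have hc0 : (0 : ℝ) < Fintype.card Q := by linarith
  have e1' : (1 / (2 * z.im)) * (E1 + E2) ≤ (1 / z.im) * (E1 + E2) * Fintype.card Q := by
    have : (1 / (2 * z.im)) * (E1 + E2) ≤ (1 / z.im) * (E1 + E2) := by
      refine mul_le_mul_of_nonneg_right ?_ (by positivity)
      exact one_div_le_one_div_of_le hz (by linarith)
    refine this.trans ?_
    have h0 : 0 ≤ (1 / z.im) * (E1 + E2) := by positivity
    nlinarith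
  rw [div_le_iff₀ hc0]
  calc F ≤ _ := hmain
    _ ≤ (a / z.im) * Fintype.card Q + (1 / (a * s ^ 2)) *
        (T + (1 / z.im) * (E1 + E2) * Fintype.card Q) := by
      refine add_le_add (mul_le_mul_of_nonneg_left hWle (by positivity))
        (mul_le_mul_of_nonneg_left (add_le_add le_rfl e1') (by positivity))
    _ = _ := by
      field_simp

end

end Pool.Agent.W134.GKP2
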